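import Pool.Agent.N892.BW.LOC
import Pool.Agent.H78.PB.Stm

/-!
LOC for a real exponent: adaptation of `N892/BW/LOC`.
-/

set_option autoImplicit false

open MeasureTheory ENNReal Filter Topology Complex
open scoped ComplexConjugate ContDiff

namespace Pool.Agent.H9PB.LOC

open Pool.Agent.N892.BW Pool.Agent.N892.BW.LOC Pool.Agent.H78.PB

theorem t (h3 : S_REP) (h2 : R_MUL) (h4 : R_NEA) (h5 : R_FAR) : R_LOC := by
  obtain ⟨B1, hB1⟩ := bound 1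
  obtain ⟨B2, hB2⟩ := bound 2
  obtain ⟨E, Cm, hCm, hmul⟩ := h2
  obtain ⟨hsm, hnea⟩ := h4 th th_cap
  refine ⟨max (B1 + B1) (B2 + B2), ?_⟩
  intro N
  obtain ⟨C2, hC2, hnea2⟩ := hnea (N + E)
  obtain ⟨C1, hC1, hfar⟩ := h5 th th_cap (N + E)
  refine ⟨Cm * (C1 + C2), 2 ^ 250, by positivity, ?_⟩
  intro n a b hn ha hab hbn
  have hb : 0 < b := lt_of_lt_of_le ha hab
  have hn1 : 1 ≤ n := le_trans (by norm_num) hn
  have hn0 : (0 : ℝ) < n := by exact_mod_cast hn1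
  set r : ℝ := (n : ℝ) ^ (499 / 500 : ℝ) / b with hrdef
  set s : ℝ := (n : ℝ) ^ (501 / 500 : ℝ) / a with hsdef
  have hr : 0 < r := by positivity
  have hs : 0 < s := by positivity
  have hrs : 2 * r ≤ s := by
    have e1 : (n : ℝ) ^ (501 / 500 : ℝ) = (n : ℝ) ^ (499 / 500 : ℝ) * (n : ℝ) ^ (1 / 250 : ℝ) := by
      rw [← Real.rpow_add hn0]
      norm_num
    have e2 : (2 : ℝ) ≤ (n : ℝ) ^ (1 / 250 : ℝ) := by
      have e3 : ((2 : ℝ) ^ (250 : ℕ)) ≤ (n : ℝ) := by exact_mod_cast hn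
      have e4 : ((2 : ℝ) ^ (250 : ℕ)) ^ (1 / 250 : ℝ) ≤ (n : ℝ) ^ (1 / 250 : ℝ) :=
        Real.rpow_le_rpow (by positivity) e3 (by norm_num)
      have e5 : ((2 : ℝ) ^ (250 : ℕ)) ^ (1 / 250 : ℝ) = 2 := by
        rw [← Real.rpow_natCast, ← Real.rpow_mul (by norm_num)]
        norm_num
      rwa [e5] at e4
    have e6 : r ≤ (n : ℝ) ^ (499 / 500 : ℝ) / a := by
      rw [hrdef]
      exact div_le_div_of_nonneg_left (by positivity) ha hab
    calc 2 * r ≤ 2 * ((n : ℝ) ^ (499 / 500 : ℝ) / a) := by linarith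
      _ = (n : ℝ) ^ (499 / 500 : ℝ) * 2 / a := by ring
      _ ≤ (n : ℝ) ^ (499 / 500 : ℝ) * (n : ℝ) ^ (1 / 250 : ℝ) / a := by gcongr
      _ = s := by rw [hsdef, e1]
  have hψ : (fun x => tr s x - tr r x) =
      fun x => th (((s⁻¹ : ℝ) : ℂ) * x) - th (((r⁻¹ : ℝ) : ℂ) * x) := by
    funext x
    simp only [tr, Complex.real_smul]
  refine ⟨fun x => th (((s⁻¹ : ℝ) : ℂ) * x) - th (((r⁻¹ : ℝ) : ℂ) * x), ?_, ?_⟩
  · rw [← hψ, mul_div_assoc]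
    exact cut_tr B1 B2 hB1 hB2 r s hr hrs
  intro h hh m hm
  have hμs : ContDiff ℝ ∞ (mu n th s) := hsm n s hs
  have hμr : ContDiff ℝ ∞ (mu n th r) := hsm n r hr
  -- the symbol of the difference
  have hA : ∀ ξ : ℂ, ξ ≠ 0 → ContDiffAt ℝ ∞ (fun ξ => sy n ξ - mu n th s ξ) ξ := fun ξ hξ =>
    (sy_smooth n ξ hξ).sub hμs.contDiffAt
  have hν : ∀ ξ : ℂ, ξ ≠ 0 → ContDiffAt ℝ ∞ (fun ξ => (sy n ξ - mu n th s ξ) + mu n th r ξ) ξ :=
    fun ξ hξ => (hA ξ hξ).add hμr.contDiffAt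
  have hid : ∀ x, Fi (Tn n h) x -
      So n (fun x => th (((s⁻¹ : ℝ) : ℂ) * x) - th (((r⁻¹ : ℝ) : ℂ) * x)) (Fi h) x =
      Fi (fun ξ => ((sy n ξ - mu n th s ξ) + mu n th r ξ) * h ξ) x := by
    intro x
    rw [h3 th th_cap n r s a b h hn1 hr hrs ha hh x]
    have i1 : Integrable (fun ξ => e2 x ξ * Tn n h ξ) :=
      bd_int (bd_mul ha (fun ξ hξ => sy_smooth n ξ hξ) hh) x
    have i2 : Integrable (fun ξ => e2 x ξ * ((mu n th s ξ - mu n th r ξ) * h ξ)) :=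
      bd_int (bd_mul ha (μ := fun ξ => mu n th s ξ - mu n th r ξ)
        (fun ξ _ => hμs.contDiffAt.sub hμr.contDiffAt) hh) x
    unfold Fi
    rw [← integral_sub i1 i2]
    congr 1
    funext ξ
    simp only [Tn]
    ring
  have hfun : (fun x => Fi (Tn n h) x -
      So n (fun x => th (((s⁻¹ : ℝ) : ℂ) * x) - th (((r⁻¹ : ℝ) : ℂ) * x)) (Fi h) x) =
      Fi (fun ξ => ((sy n ξ - mu n th s ξ) + mu n th r ξ) * h ξ) := funext hid
  rw [hfun]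
  have hδ : 0 ≤ (C1 + C2) * ((n : ℝ) ^ (N + E))⁻¹ := by positivity
  have key := hmul n a b ((C1 + C2) * ((n : ℝ) ^ (N + E))⁻¹)
    (fun ξ => (sy n ξ - mu n th s ξ) + mu n th r ξ) hn1 ha hab hbn hδ
    (fun ξ hξ => (hν ξ hξ).contDiffWithinAt) ?_ h hh m hm
  · refine key.trans (le_of_eq ?_)
    congr 2
    have : Cm * (n : ℝ) ^ E * ((C1 + C2) * ((n : ℝ) ^ (N + E))⁻¹) =
        Cm * (C1 + C2) * ((n : ℝ) ^ N)⁻¹ := by
      rw [pow_add]
      field_simp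
    rw [this]
  · intro k hk ξ hξ1 hξ2
    have hξ0 : ξ ≠ 0 := by
      intro h0
      rw [h0, norm_zero] at hξ1
      linarith
    have b1 := hfar n a hn1 ha k hk ξ hξ1
    have b2 := hnea2 n a b hn1 ha hab hbn k hk ξ hξ2
    rw [← hsdef] at b1
    rw [← hrdef] at b2
    have e1 : iteratedFDeriv ℝ k (fun ξ => (sy n ξ - mu n th s ξ) + mu n th r ξ) ξ =
        iteratedFDeriv ℝ k (fun ξ => sy n ξ - mu n th s ξ) ξ + iteratedFDeriv ℝ k (mu n th r) ξ := by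
      have hk' : (k : WithTop ℕ∞) ≤ ((⊤ : ℕ∞) : WithTop ℕ∞) := by exact_mod_cast le_top
      exact iteratedFDeriv_add_apply (f := fun ξ => sy n ξ - mu n th s ξ) (g := mu n th r)
        ((hA ξ hξ0).of_le hk') (hμr.contDiffAt.of_le hk')
    rw [e1]
    refine (norm_add_le _ _).trans ?_
    refine (add_le_add b1 b2).trans (le_of_eq ?_)
    ring

end Pool.Agent.H9PB.LOC
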