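import Pool.Agent.N892.BW.MUL
import Pool.Agent.H78.PB.Stm

/-!
MUL for a real exponent: adaptation of `N892/BW/MUL`.
-/

set_option autoImplicit false

open MeasureTheory ENNReal Filter Topology Complex
open scoped ComplexConjugate ContDiff FourierTransform

namespace Pool.Agent.H9PB.MUL

open Pool.Agent.N892.BW Pool.Agent.H78.PB
open Pool.Agent.N892.BW.MUL hiding yng t

theorem yng {m : ℝ} (hm : 1 < m) (G f : ℂ → ℂ) (hG : Measurable G) (hf : Measurable f) :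
    ∫⁻ x, ‖∫ z, G (x - z) * f z‖ₑ ^ (2 * m) ≤
      (∫⁻ z, ‖G z‖ₑ) ^ (2 * m) * ∫⁻ z, ‖f z‖ₑ ^ (2 * m) := by
  obtain ⟨q, hq⟩ : ∃ q, q = 2 * m := ⟨_, rfl⟩
  rw [← hq]
  have hq1 : 1 < q := by rw [hq]; linarith
  have hq0 : 0 < q := by linarith
  have hpq : (Real.conjExponent q).HolderConjugate q := (Real.HolderConjugate.conjExponent hq1).symm
  set K1 : ℝ≥0∞ := ∫⁻ z, ‖G z‖ₑ with hK1def
  have hs : ∀ w, ∫⁻ z, ‖G (w - z)‖ₑ = K1 := fun w =>
    lintegral_sub_left_eq_self (μ := (volume : Measure ℂ)) (fun z => ‖G z‖ₑ) w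
  have hs' : ∀ z, ∫⁻ w, ‖G (w - z)‖ₑ = K1 := fun z =>
    lintegral_sub_right_eq_self (μ := (volume : Measure ℂ)) (fun z => ‖G z‖ₑ) z
  have h1 : ∀ w, ‖∫ z, G (w - z) * f z‖ₑ ^ q ≤
      K1 ^ (q - 1) * ∫⁻ z, ‖G (w - z)‖ₑ * ‖f z‖ₑ ^ q := by
    intro w
    have ha : ‖∫ z, G (w - z) * f z‖ₑ ≤ ∫⁻ z, ‖G (w - z)‖ₑ * ‖f z‖ₑ := by
      refine (enorm_integral_le_lintegral_enorm _).trans (le_of_eq ?_)
      apply lintegral_congr
      intro z
      rw [enorm_mul]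
    refine (ENNReal.rpow_le_rpow ha hq0.le).trans ?_
    have := FIN.hold _ q hpq (fun z => ‖G (w - z)‖ₑ) (fun z => ‖f z‖ₑ)
      (hG.comp (measurable_const.sub measurable_id)).enorm hf.enorm
    rw [hs w] at this
    exact this
  have hmeas2 : Measurable (Function.uncurry fun w z : ℂ => ‖G (w - z)‖ₑ * ‖f z‖ₑ ^ q) := by
    apply Measurable.mul
    · exact (hG.comp (measurable_fst.sub measurable_snd)).enorm
    · exact ((hf.comp measurable_snd).enorm).pow_const _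
  calc ∫⁻ w, ‖∫ z, G (w - z) * f z‖ₑ ^ q
      ≤ ∫⁻ w, K1 ^ (q - 1) * ∫⁻ z, ‖G (w - z)‖ₑ * ‖f z‖ₑ ^ q := lintegral_mono h1
    _ = K1 ^ (q - 1) * ∫⁻ w, ∫⁻ z, ‖G (w - z)‖ₑ * ‖f z‖ₑ ^ q := by
        rw [lintegral_const_mul]
        exact hmeas2.lintegral_prod_right
    _ = K1 ^ (q - 1) * ∫⁻ z, ∫⁻ w, ‖G (w - z)‖ₑ * ‖f z‖ₑ ^ q := by
        rw [lintegral_lintegral_swap hmeas2.aemeasurable]
    _ = K1 ^ (q - 1) * ∫⁻ z, K1 * ‖f z‖ₑ ^ q := by
        congr 1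
        apply lintegral_congr
        intro z
        have hmz : Measurable (fun w : ℂ => ‖G (w - z)‖ₑ) :=
          (hG.comp (measurable_id.sub measurable_const)).enorm
        rw [lintegral_mul_const _ hmz, hs' z]
    _ = K1 ^ (q - 1) * (K1 * ∫⁻ z, ‖f z‖ₑ ^ q) := by
        rw [lintegral_const_mul _ (hf.enorm.pow_const _)]
    _ = K1 ^ q * ∫⁻ z, ‖f z‖ₑ ^ q := by
        rw [← mul_assoc]
        congr 1
        conv_lhs => rw [← ENNReal.rpow_one K1, ← ENNReal.rpow_mul, one_mul]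
        rw [← ENNReal.rpow_add_of_nonneg _ _ (by linarith) (by norm_num)]
        congr 1
        ring

theorem t (h1 : S_BAS) (h2 : S_CNV) : R_MUL := by
  obtain ⟨B, hB0, hB⟩ := nu_bound
  obtain ⟨C, hC0, hC⟩ := l1
  refine ⟨6, 4 * C * B, by positivity, ?_⟩
  intro n a b δ μ hn ha hab hbn hδ hμ hD h hh m hm
  have hb : 0 < b := ha.trans_le hab
  have hn1 : (1 : ℝ) ≤ n := by exact_mod_cast hn
  have hn0 : (0 : ℝ) < n := by linarith
  set L : ℝ := (n : ℝ) ^ 2 / a with hL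
  have hL0 : 0 < L := by positivity
  have hL1 : 1 / a ≤ L := by
    rw [hL]
    exact div_le_div_of_nonneg_right (one_le_pow₀ hn1) ha.le
  obtain ⟨hν, hνD⟩ := hB a b L δ μ ha hab hL1 hδ hμ hD
  set ν : ℂ → ℂ := fun ξ => et a b ξ * μ ξ with hνdef
  have hνs : ∀ ξ, ν ξ ≠ 0 → a / 2 ≤ ‖ξ‖ ∧ ‖ξ‖ ≤ 2 * b := by
    intro ξ hξ
    have := et_supp ha hb (left_ne_zero_of_mul hξ)
    exact ⟨this.1.le, this.2.le⟩
  have hνB : Bd 0 (2 * b) ν := ⟨hν, fun ξ hξ => ⟨norm_nonneg _, (hνs ξ hξ).2⟩⟩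
  have hhB : Bd 0 (2 * b) h := ⟨hh.1, fun ξ hξ => ⟨norm_nonneg _, by
    have := (hh.2 ξ hξ).2
    linarith⟩⟩
  have hνh : (fun ξ => μ ξ * h ξ) = fun ξ => ν ξ * h ξ := by
    funext ξ
    by_cases h0 : h ξ = 0
    · rw [h0, mul_zero, mul_zero]
    · obtain ⟨g1, g2⟩ := hh.2 ξ h0
      rw [hνdef]
      simp only
      rw [et_one ha hb g1 g2, one_mul]
  obtain ⟨bc, -, ⟨-, bi, -⟩, -, -⟩ := h1 (2 * b) ν hνB
  obtain ⟨hc, -, -, -, -⟩ := h1 (2 * b) h hhB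
  have hL1n : ∫ x, ‖Fi ν x‖ ≤ 4 * C * B * (n : ℝ) ^ 6 * δ := by
    have hs : 0 < L⁻¹ := inv_pos.2 hL0
    rw [← scal ν hs]
    have := hC (fun v => ν (L⁻¹ • v)) (2 * (n : ℝ) ^ 3) (B * δ) (by positivity) (by positivity)
      (hν.comp (contDiff_const_smul _)) (by
        intro v hv
        have g := (hνs _ hv).2
        rw [nsm hs, ← div_eq_inv_mul, div_le_iff₀ hL0] at g
        refine g.trans ?_
        rw [hL]
        calc 2 * b * ((n : ℝ) ^ 2 / a) ≤ 2 * (a * n) * ((n : ℝ) ^ 2 / a) := by gcongr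
          _ = 2 * (n : ℝ) ^ 3 := by field_simp) (by
        intro k hk v
        have g := sc_bound (k := k) hν (hνD k hk) L⁻¹ v
        refine g.trans (le_of_eq ?_)
        rw [abs_of_pos hs, inv_pow]
        field_simp)
    refine this.trans (le_of_eq ?_)
    ring
  have hK : ∫⁻ x, ‖Fi ν x‖ₑ ≤ ENNReal.ofReal (4 * C * B * (n : ℝ) ^ 6 * δ) := by
    rw [← ofReal_integral_norm_eq_lintegral_enorm bi]
    exact ENNReal.ofReal_le_ofReal hL1n
  unfold Nr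
  rw [hνh]
  have hconv : ∀ x, Fi (fun ξ => ν ξ * h ξ) x = ∫ z, Fi ν (x - z) * Fi h z :=
    fun x => (h2 (2 * b) ν h hνB hhB x).2
  simp_rw [hconv]
  have hm1 : 1 < m := by linarith [hm.1]
  refine (yng hm1 (Fi ν) (Fi h) bc.measurable hc.measurable).trans ?_
  refine mul_le_mul_left ?_ _
  rw [← ENNReal.ofReal_rpow_of_nonneg (by positivity) (by linarith)]
  exact ENNReal.rpow_le_rpow hK (by linarith)

end Pool.Agent.H9PB.MUL
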