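import Pool.Agent.N892.BW.PAL
import Pool.Agent.H78.PB.Stm

/-!
Project PB (helper78), stub PAL, by helper9: Paley's inequality in inverted coordinates, real exponent
(adapted from the library file `N892/BW/PAL`).
-/

set_option autoImplicit false

open MeasureTheory ENNReal Filter Topology Complex
open scoped ComplexConjugate

namespace Pool.Agent.H9PB.PAL

open Pool.Agent.N892.BW Pool.Agent.N892.BW.PAL Pool.Agent.H78.PB

theorem real_id (n : ℕ) (m : ℝ) (hm : Rg m) (hn : 1 ≤ n) (r y : ℝ) (hr : 0 ≤ r) (hy : 0 ≤ y) :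
    (n / (Real.pi * r ^ 2) * y) ^ (2 * m) * r ^ (4 * m - 4) =
      (n / Real.pi) ^ (2 * m) / (2 * (n : ℝ)) ^ 2 * ((2 * (n : ℝ)) ^ 2 / r ^ 4 * y ^ (2 * m)) := by
  have hn0 : (0 : ℝ) < n := by exact_mod_cast hn
  have hpi := Real.pi_pos
  have hm1 := hm.1
  rcases hr.lt_or_eq with h | h
  · have e2 : n / (Real.pi * r ^ 2) * y = (n / Real.pi) * y / r ^ 2 := by field_simp
    have e3 : r ^ (4 * m - 4) = r ^ (4 * m) / r ^ 4 := by
      rw [Real.rpow_sub h, ← Real.rpow_natCast r 4]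
      norm_num
    have e4 : (r ^ 2) ^ (2 * m) = r ^ (4 * m) := by
      rw [← Real.rpow_natCast r 2, ← Real.rpow_mul h.le]
      congr 1
      push_cast
      ring
    rw [e2, Real.div_rpow (by positivity) (by positivity), Real.mul_rpow (by positivity) hy, e3, e4]
    have e5 : r ^ (4 * m) ≠ 0 := (Real.rpow_pos_of_pos h _).ne'
    field_simp
  · rw [← h]
    have e1 : 4 * m - 4 ≠ 0 := by
      intro h0
      linarith
    rw [Real.zero_rpow e1]
    simp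

theorem Ar_pos (m G : ℝ) (n : ℕ) (hG : 0 < G) (hn : 1 ≤ n) : 0 < Ar m G n := by
  have hn0 : (0 : ℝ) < n := by exact_mod_cast hn
  unfold Ar
  exact mul_pos (Real.rpow_pos_of_pos hn0 _) hG

theorem Ar_pow (m G : ℝ) (n : ℕ) (hm : Rg m) (hG : 0 < G) (hn : 1 ≤ n) :
    4 * Real.pi ^ (2 * m) * G ^ (2 * m) * ((n / Real.pi) ^ (2 * m) / (2 * (n : ℝ)) ^ 2) =
      Ar m G n ^ (2 * m) := by
  have hn0 : (0 : ℝ) < n := by exact_mod_cast hn
  have hm1 := hm.1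
  have hm0 : (0 : ℝ) < m := by linarith
  have hpi := Real.pi_pos
  unfold Ar
  rw [Real.mul_rpow (Real.rpow_nonneg hn0.le _) hG.le, ← Real.rpow_mul hn0.le]
  have h1 : (1 - 1 / m) * (2 * m) = 2 * m - 2 := by field_simp
  rw [h1, Real.rpow_sub hn0, Real.div_rpow hn0.le hpi.le]
  have e5 : Real.pi ^ (2 * m) ≠ 0 := (Real.rpow_pos_of_pos hpi _).ne'
  have e6 : (n : ℝ) ^ (2 : ℝ) = (n : ℝ) ^ 2 := by
    rw [← Real.rpow_natCast]
    norm_num
  rw [e6]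
  field_simp
  ring

theorem bound (m G : ℝ) (h : Pit m G) (n : ℕ) (hm : Rg m) (hG : 0 < G) (hn : 1 ≤ n) {ρ D : ℝ}
    (hρ : 0 < ρ) (hD : 0 < D) {φ : ℂ → ℂ} (hφ : Nice φ) (hs : ∀ w, φ w ≠ 0 → ρ ≤ ‖w‖ ∧ ‖w‖ ≤ D) :
    ∫⁻ x, ‖∫ w, ((ker n w : ℝ) : ℂ) * φ w * ex x (iv n w)‖ₑ ^ (2 * m) ≤
      ENNReal.ofReal (Ar m G n ^ (2 * m)) * ∫⁻ w, ‖φ w‖ₑ ^ (2 * m) := by
  have hn0 : (0 : ℝ) < n := by exact_mod_cast hn
  have hm1 := hm.1
  have hpi := Real.pi_pos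
  simp only [phi_eq n hn]
  refine (h _ (FF_nice n hn hρ hD hφ hs)).trans ?_
  have hpt : ∀ v : ℂ, ‖FF n φ v‖ₑ ^ (2 * m) * ‖v‖ₑ ^ (4 * m - 4) =
      ENNReal.ofReal ((n / Real.pi) ^ (2 * m) / (2 * (n : ℝ)) ^ 2) *
        (ENNReal.ofReal ((2 * (n : ℝ)) ^ 2 / ‖v‖ ^ 4) * ‖φ (iv n v)‖ₑ ^ (2 * m)) := by
    intro v
    have h1 : ‖FF n φ v‖ = n / (Real.pi * ‖v‖ ^ 2) * ‖φ (iv n v)‖ := by
      unfold FF
      rw [norm_mul, Complex.norm_real, Real.norm_of_nonneg (ker_nonneg n v)]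
      rfl
    rw [← en_pow (by linarith) (FF n φ v), ← en_pow (by linarith) v,
      ← en_pow (by linarith) (φ (iv n v)),
      ← ENNReal.ofReal_mul (by positivity), ← ENNReal.ofReal_mul (by positivity),
      ← ENNReal.ofReal_mul (by positivity), h1, real_id n m hm hn _ _ (norm_nonneg _) (norm_nonneg _)]
  simp only [hpt]
  rw [lintegral_const_mul' _ _ ofReal_ne_top, ← cov n hn (fun w => ‖φ w‖ₑ ^ (2 * m)), ← mul_assoc,
    ← ENNReal.ofReal_mul (by positivity), Ar_pow m G n hm hG hn]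

theorem qr_gt (m : ℝ) (hm : Rg m) : 1 < qr m := by
  have hm0 := hm.1
  unfold qr
  rw [lt_div_iff₀ (by linarith)]
  linarith

theorem qr_conj (m : ℝ) (hm : Rg m) : (qr m).HolderConjugate (2 * m) := by
  have hm0 := hm.1
  rw [Real.holderConjugate_iff]
  refine ⟨qr_gt m hm, ?_⟩
  unfold qr
  have h1 : (2 * m - 1) ≠ 0 := by intro h; linarith
  have h2 : m ≠ 0 := by intro h; linarith
  rw [inv_div]
  field_simp
  ring

theorem qr_eq (m : ℝ) (hm : Rg m) : (qr m - 1) * (2 * m) = qr m := by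
  have hm0 := hm.1
  unfold qr
  have h1 : (2 * m - 1) ≠ 0 := by intro h; linarith
  field_simp
  ring

theorem ph_pow (m : ℝ) (hm : Rg m) (n : ℕ) (g : ℂ → ℂ) (ρ D : ℝ) :
    ∫⁻ w, ‖ph (qr m) n g ρ D w‖ₑ ^ (2 * m) = ∫⁻ w in An ρ D, ‖hh n g w‖ₑ ^ (qr m) := by
  have hm0 := hm.1
  rw [← lintegral_indicator (An_meas ρ D)]
  refine lintegral_congr fun w => ?_
  have hq := qr_gt m hm
  by_cases hw : w ∈ An ρ D
  · rw [Set.indicator_of_mem hw]
    unfold ph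
    rw [Set.indicator_of_mem hw, ← ofReal_norm, pt2 hq, en_pow (by linarith),
      ← ENNReal.rpow_mul, qr_eq m hm]
  · rw [Set.indicator_of_notMem hw]
    unfold ph
    rw [Set.indicator_of_notMem hw, enorm_zero, ENNReal.zero_rpow_of_pos (by linarith)]

theorem J_fin (m : ℝ) (hm : Rg m) (n : ℕ) (g : ℂ → ℂ) {ρ D : ℝ} (hρ : 0 < ρ) :
    ∫⁻ w in An ρ D, ‖hh n g w‖ₑ ^ (qr m) ≠ ∞ := by
  have hq := qr_gt m hm
  have h1 : ∫⁻ w in An ρ D, ‖hh n g w‖ₑ ^ (qr m) ≤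
      ∫⁻ _w in An ρ D, ENNReal.ofReal ((n / (Real.pi * ρ ^ 2) * ∫ x, ‖g x‖) ^ (qr m)) := by
    refine setLIntegral_mono' (An_meas ρ D) fun w hw => ?_
    rw [← en_pow (by linarith)]
    exact ENNReal.ofReal_le_ofReal (Real.rpow_le_rpow (norm_nonneg _) (hh_bd n g hρ hw) (by linarith))
  refine ne_top_of_le_ne_top ?_ h1
  rw [setLIntegral_const]
  exact ENNReal.mul_ne_top ENNReal.ofReal_ne_top (An_fin ρ D)

theorem J_eq (m : ℝ) (hm : Rg m) (n : ℕ) {g : ℂ → ℂ} (hg : Nice g) {ρ D : ℝ} (hρ : 0 < ρ) :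
    ‖∫ w, hh n g w * ph (qr m) n g ρ D w‖ₑ = ∫⁻ w in An ρ D, ‖hh n g w‖ₑ ^ (qr m) := by
  have hq := qr_gt m hm
  have e1 : ∫ w, hh n g w * ph (qr m) n g ρ D w =
      ((∫ w in An ρ D, ‖hh n g w‖ ^ (qr m) : ℝ) : ℂ) := by
    rw [← integral_complex_ofReal, ← integral_indicator (An_meas ρ D)]
    refine integral_congr_ae (Eventually.of_forall fun w => ?_)
    show hh n g w * ph (qr m) n g ρ D w = _
    by_cases hw : w ∈ An ρ D
    · rw [Set.indicator_of_mem hw]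
      unfold ph
      rw [Set.indicator_of_mem hw, pt1 hq]
    · rw [Set.indicator_of_notMem hw]
      unfold ph
      rw [Set.indicator_of_notMem hw, mul_zero]
  have hnn : 0 ≤ ∫ w in An ρ D, ‖hh n g w‖ ^ (qr m) :=
    integral_nonneg fun w => Real.rpow_nonneg (norm_nonneg _) _
  have hint : Integrable (fun w => ‖hh n g w‖ ^ (qr m)) (volume.restrict (An ρ D)) := by
    refine Measure.integrableOn_of_bounded (M := (n / (Real.pi * ρ ^ 2) * ∫ x, ‖g x‖) ^ (qr m))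
      (An_fin ρ D) ((hh_meas n hg.1).norm.pow_const _).aestronglyMeasurable ?_
    refine (ae_restrict_iff' (An_meas ρ D)).2 (Eventually.of_forall fun w hw => ?_)
    rw [Real.norm_of_nonneg (Real.rpow_nonneg (norm_nonneg _) _)]
    exact Real.rpow_le_rpow (norm_nonneg _) (hh_bd n g hρ hw) (by linarith)
  rw [e1, ← ofReal_norm, Complex.norm_real, Real.norm_of_nonneg hnn,
    ofReal_integral_eq_lintegral_ofReal hint
      (Eventually.of_forall fun w => Real.rpow_nonneg (norm_nonneg _) _)]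
  refine lintegral_congr fun w => ?_
  exact en_pow (by linarith) _

/-- the inequality on an annulus -/
theorem ann (m G₀ : ℝ) (hP : Pit m G₀) (n : ℕ) (hm : Rg m) (hG₀ : 0 < G₀) (hn : 1 ≤ n) {g : ℂ → ℂ} (hg : Nice g) {ρ D : ℝ}
    (hρ : 0 < ρ) (hD : 0 < D) :
    ∫⁻ w in An ρ D, ‖hh n g w‖ₑ ^ (qr m) ≤
      ENNReal.ofReal (Ar m G₀ n ^ (qr m)) * ∫⁻ x, ‖g x‖ₑ ^ (qr m) := by
  have hq := qr_gt m hm
  have hconj := qr_conj m hm
  have hm0 := hm.1
  have hAA := Ar_pos m G₀ n hG₀ hn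
  obtain ⟨J, hJ⟩ : ∃ J, J = ∫⁻ w in An ρ D, ‖hh n g w‖ₑ ^ (qr m) := ⟨_, rfl⟩
  obtain ⟨G, hG⟩ : ∃ G, G = ∫⁻ x, ‖g x‖ₑ ^ (qr m) := ⟨_, rfl⟩
  have hJt : J ≠ ∞ := by
    rw [hJ]
    exact J_fin m hm n g hρ
  -- the dual function
  obtain ⟨Φ, hΦ⟩ : ∃ Φ : ℂ → ℂ, Φ = fun x =>
    ∫ w, ((ker n w : ℝ) : ℂ) * ph (qr m) n g ρ D w * ex x (iv n w) := ⟨_, rfl⟩
  have hΦm : Measurable Φ := by
    rw [hΦ]
    have h : StronglyMeasurable (Function.uncurry fun (x w : ℂ) =>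
        ((ker n w : ℝ) : ℂ) * ph (qr m) n g ρ D w * ex x (iv n w)) := by
      refine Measurable.stronglyMeasurable ?_
      refine ((kph_nice hq n hg (D := D) hρ).1.comp measurable_snd).mul ?_
      exact ex_cont.measurable.comp (measurable_fst.prodMk ((iv_meas n).comp measurable_snd))
    exact h.integral_prod_right.measurable
  have h1 : ∫⁻ x, ‖Φ x‖ₑ ^ (2 * m) ≤ ENNReal.ofReal (Ar m G₀ n ^ (2 * m)) * J := by
    have h := bound m G₀ hP n hm hG₀ hn hρ hD (ph_nice hq n hg (D := D) hρ)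
      (fun w hw => ph_supp _ _ _ _ _ _ hw)
    rw [ph_pow m hm] at h
    rw [hJ, hΦ]
    exact h
  have h2 : J ≤ G ^ (1 / qr m) * (ENNReal.ofReal (Ar m G₀ n ^ (2 * m)) * J) ^ (1 / (2 * m)) := by
    have h3 : J = ‖∫ x, g x * Φ x‖ₑ := by
      rw [hJ, ← J_eq m hm n hg hρ, fub hq n hg hρ, hΦ]
    rw [h3]
    refine (enorm_integral_le_lintegral_enorm _).trans ?_
    have h4 : ∫⁻ x, ‖g x * Φ x‖ₑ = ∫⁻ x, ((fun x => ‖g x‖ₑ) * fun x => ‖Φ x‖ₑ) x := by
      refine lintegral_congr fun x => ?_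
      rw [enorm_mul]
      rfl
    rw [h4]
    refine (ENNReal.lintegral_mul_le_Lp_mul_Lq volume hconj hg.1.enorm.aemeasurable
      hΦm.enorm.aemeasurable).trans ?_
    rw [← hG, ← h3]
    gcongr
  have h5 : (ENNReal.ofReal (Ar m G₀ n ^ (2 * m)) * J) ^ (1 / (2 * m)) =
      ENNReal.ofReal (Ar m G₀ n) * J ^ (1 / (2 * m)) := by
    rw [ENNReal.mul_rpow_of_nonneg _ _ (by positivity),
      ENNReal.ofReal_rpow_of_nonneg (by positivity) (by positivity),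
      ← Real.rpow_mul hAA.le]
    congr 2
    have : (2 * m) * (1 / (2 * m)) = 1 := by
      have : m ≠ 0 := by intro h; linarith
      field_simp
    rw [this, Real.rpow_one]
  rw [h5, ← mul_assoc] at h2
  rw [← hJ, ← hG]
  by_cases hJ0 : J = 0
  · rw [hJ0]
    exact bot_le
  have h6 : J = J ^ (1 / qr m) * J ^ (1 / (2 * m)) := by
    rw [← ENNReal.rpow_add _ _ hJ0 hJt, one_div, one_div, hconj.inv_add_inv_eq_one, ENNReal.rpow_one]
  have h7 : J ^ (1 / qr m) * J ^ (1 / (2 * m)) ≤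
      G ^ (1 / qr m) * ENNReal.ofReal (Ar m G₀ n) * J ^ (1 / (2 * m)) := by
    rw [← h6]
    exact h2
  have h8 : J ^ (1 / (2 * m)) ≠ 0 := by
    rw [Ne, ENNReal.rpow_eq_zero_iff]
    push Not
    exact ⟨fun h => absurd h hJ0, fun h => absurd h hJt⟩
  have h9 : J ^ (1 / (2 * m)) ≠ ∞ := ENNReal.rpow_ne_top_of_nonneg (by positivity) hJt
  have h10 := (ENNReal.mul_le_mul_iff_left h8 h9).1 h7
  have h11 := ENNReal.rpow_le_rpow h10 (by linarith : (0 : ℝ) ≤ qr m)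
  rw [← ENNReal.rpow_mul, one_div, inv_mul_cancel₀ (by linarith : qr m ≠ 0), ENNReal.rpow_one,
    ENNReal.mul_rpow_of_nonneg _ _ (by linarith), ← ENNReal.rpow_mul,
    inv_mul_cancel₀ (by linarith : qr m ≠ 0), ENNReal.rpow_one,
    ENNReal.ofReal_rpow_of_nonneg hAA.le (by linarith)] at h11
  rw [mul_comm]
  exact h11

/-- **PAL.** -/
theorem t : R_PAL := by
  intro m G hm hG h n hn g hg
  have e1 : ∀ w : ℂ, (ENNReal.ofReal (ker n w) * ‖hat g (iv n w)‖ₑ) ^ (qr m) =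
      ‖hh n g w‖ₑ ^ (qr m) := by
    intro w
    unfold hh
    rw [enorm_mul, ← ofReal_norm ((ker n w : ℝ) : ℂ), Complex.norm_real,
      Real.norm_of_nonneg (ker_nonneg n w)]
  simp only [e1]
  have hdir : Directed (· ⊆ ·) fun k : ℕ => An (1 / ((k : ℝ) + 1)) ((k : ℝ) + 1) := by
    refine Monotone.directed_le (f := fun k : ℕ => An (1 / ((k : ℝ) + 1)) ((k : ℝ) + 1)) ?_
    intro i j hij w hw
    have hij' : (i : ℝ) ≤ j := by exact_mod_cast hij
    refine ⟨le_trans ?_ hw.1, hw.2.trans (by linarith)⟩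
    apply one_div_le_one_div_of_le
    · positivity
    · linarith
  have hun : (⋃ k : ℕ, An (1 / ((k : ℝ) + 1)) ((k : ℝ) + 1)) = {0}ᶜ := by
    ext w
    rw [Set.mem_iUnion]
    constructor
    · rintro ⟨k, hk⟩ hw
      have hw0 : w = 0 := hw
      have h1 := hk.1
      rw [hw0, norm_zero] at h1
      have : (0 : ℝ) < 1 / ((k : ℝ) + 1) := by positivity
      linarith
    · intro hw
      have hw0 : 0 < ‖w‖ := norm_pos_iff.2 hw
      obtain ⟨k, hk⟩ := exists_nat_ge (max ‖w‖ (1 / ‖w‖))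
      refine ⟨k, ?_, ?_⟩
      · have h1 := (le_max_right _ _).trans hk
        rw [div_le_iff₀ (by positivity)]
        rw [div_le_iff₀ hw0] at h1
        nlinarith
      · have h1 := (le_max_left _ _).trans hk
        linarith
  have h2 : ∫⁻ w, ‖hh n g w‖ₑ ^ (qr m) =
      ⨆ k : ℕ, ∫⁻ w in An (1 / ((k : ℝ) + 1)) ((k : ℝ) + 1), ‖hh n g w‖ₑ ^ (qr m) := by
    rw [← setLIntegral_iUnion_of_directed _ hdir, hun, restrict_compl_singleton]
  rw [h2]
  refine iSup_le fun k => ?_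
  exact ann m G h n hm hG hn hg (by positivity) (by positivity)

end Pool.Agent.H9PB.PAL
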